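import Pool.Agent.Helper46.DZ2.St

set_option autoImplicit false

namespace Pool.Agent.Helper28.DZ2

open Pool.Agent.Helper46.DZ2 Polynomial

/-- the ideal -/
noncomputable abbrev Id (M l : ℕ) : Ideal (ZMod 2)[X] :=
  Ideal.span {(X : (ZMod 2)[X]) ^ M - 1, (X : (ZMod 2)[X]) ^ l + X + 1}

theorem memM (M l : ℕ) : (X : (ZMod 2)[X]) ^ M - 1 ∈ Id M l :=
  Ideal.subset_span (by simp)

theorem meml (M l : ℕ) : (X : (ZMod 2)[X]) ^ l + X + 1 ∈ Id M l :=
  Ideal.subset_span (by simp)

theorem hsx (n : ℕ) : (((X ^ (2 ^ n) - X : (ZMod 2)[X])).map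
    (algebraMap (ZMod 2) (GaloisField 2 n))).Splits := by
  have := SplittingField.splits (X ^ (2 ^ n) - X : (ZMod 2)[X])
  exact this

theorem root_of_dvd (n M : ℕ) (hn : n ≠ 0) (hM : 0 < M) (hd : M ∣ 2 ^ n - 1) (q : (ZMod 2)[X])
    (hq : q ∣ X ^ M - 1) (hu : ¬ IsUnit q) : ∃ y : GaloisField 2 n, aeval y q = 0 := by
  have hne : (X ^ M - 1 : (ZMod 2)[X]) ≠ 0 := (monic_X_pow_sub_C 1 hM.ne').ne_zero
  have h1 : (X ^ M - 1 : (ZMod 2)[X]) ∣ X ^ (2 ^ n) - X := by
    have e : (X ^ (2 ^ n) - X : (ZMod 2)[X]) = X * (X ^ (2 ^ n - 1) - 1) := by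
      rw [mul_sub, mul_one, ← pow_succ', Nat.sub_add_cancel Nat.one_le_two_pow]
    rw [e]
    obtain ⟨k, hk⟩ := hd
    rw [hk, pow_mul]
    exact Dvd.dvd.mul_left (by simpa using sub_dvd_pow_sub_pow (X ^ M : (ZMod 2)[X]) 1 k) _
  have hne2 : (((X ^ (2 ^ n) - X : (ZMod 2)[X])).map
      (algebraMap (ZMod 2) (GaloisField 2 n))) ≠ 0 := by
    rw [Polynomial.map_ne_zero_iff (algebraMap (ZMod 2) (GaloisField 2 n)).injective]
    exact FiniteField.X_pow_card_pow_sub_X_ne_zero _ hn (by norm_num)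
  have hs2 : (q.map (algebraMap (ZMod 2) (GaloisField 2 n))).Splits :=
    (hsx n).of_dvd hne2 (Polynomial.map_dvd _ (hq.trans h1))
  have hdeg : (q.map (algebraMap (ZMod 2) (GaloisField 2 n))).degree ≠ 0 := by
    rw [degree_map]
    intro h0
    exact hu (isUnit_iff_degree_eq_zero.2 h0)
  obtain ⟨y, hy⟩ := hs2.exists_eval_eq_zero hdeg
  refine ⟨y, ?_⟩
  rwa [eval_map, ← aeval_def] at hy

/-- char 2 in the Galois field -/
theorem gtwo (n : ℕ) (a : GaloisField 2 n) : a + a = 0 := CharTwo.add_self_eq_zero a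

theorem unit_crit (n M l : ℕ) (hn : n ≠ 0) (hM : 0 < M) (hd : M ∣ 2 ^ n - 1) (P : (ZMod 2)[X])
    (h : ∀ y : GaloisField 2 n, y ^ M = 1 → 1 + y = y ^ l → aeval y P ≠ 0) :
    IsUnit (Ideal.Quotient.mk (Id M l) P) := by
  classical
  have hp : (Ideal.span {P} ⊔ Id M l) = ⊤ := by
    by_contra hne
    obtain ⟨q, hq⟩ := (IsPrincipalIdealRing.principal (Ideal.span {P} ⊔ Id M l)).principal
    have hq' : (Ideal.span {P} ⊔ Id M l) = Ideal.span {q} := hq
    have hdv : ∀ f ∈ (Ideal.span {P} ⊔ Id M l), q ∣ f := by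
      intro f hf
      rw [hq'] at hf
      exact Ideal.mem_span_singleton.1 hf
    have hu : ¬ IsUnit q := by
      intro hu
      exact hne (hq'.trans (Ideal.span_singleton_eq_top.2 hu))
    have hM1 : q ∣ X ^ M - 1 := hdv _ (Ideal.mem_sup_right (memM M l))
    have hl1 : q ∣ X ^ l + X + 1 := hdv _ (Ideal.mem_sup_right (meml M l))
    have hP1 : q ∣ P := hdv _ (Ideal.mem_sup_left (Ideal.subset_span rfl))
    obtain ⟨y, hy⟩ := root_of_dvd n M hn hM hd q hM1 hu
    have ev : ∀ f, q ∣ f → aeval y f = 0 := by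
      rintro f ⟨g, rfl⟩
      rw [map_mul, hy, zero_mul]
    have e1 := ev _ hM1
    have e2 := ev _ hl1
    have e3 := ev _ hP1
    simp only [map_sub, map_add, map_pow, aeval_X, map_one] at e1 e2
    refine h y (by linear_combination e1) ?_ e3
    have := gtwo n (y + 1)
    linear_combination this - e2
  rw [Ideal.eq_top_iff_one, Submodule.mem_sup] at hp
  obtain ⟨a, ha, b, hb, hab⟩ := hp
  obtain ⟨c, rfl⟩ := Ideal.mem_span_singleton'.1 ha
  refine IsUnit.of_mul_eq_one (Ideal.Quotient.mk (Id M l) c) ?_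
  rw [← map_mul, ← map_one (Ideal.Quotient.mk (Id M l)), Ideal.Quotient.eq]
  have : P * c - 1 = - b := by rw [← hab]; ring
  rw [this]
  exact neg_mem hb

/-- evaluation -/
noncomputable def ev {n M l : ℕ} (y : GaloisField 2 n) (h1 : y ^ M = 1) (h2 : 1 + y = y ^ l) :
    Lam M l →+* GaloisField 2 n :=
  Ideal.Quotient.lift (Id M l) (aeval y : (ZMod 2)[X] →ₐ[ZMod 2] GaloisField 2 n).toRingHom (by
    intro a ha
    have hle : Id M l ≤ RingHom.ker (aeval y : (ZMod 2)[X] →ₐ[ZMod 2] GaloisField 2 n).toRingHom := by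
      rw [Ideal.span_le]
      intro f hf
      simp only [Set.mem_insert_iff, Set.mem_singleton_iff] at hf
      rcases hf with rfl | rfl
      · show aeval y _ = 0
        simp [h1]
      · show aeval y _ = 0
        simp only [map_add, map_pow, aeval_X, map_one]
        rw [← h2]
        have := gtwo n (1 + y)
        linear_combination this
    exact hle ha)

theorem ev_mk {n M l : ℕ} (y : GaloisField 2 n) (h1 : y ^ M = 1) (h2 : 1 + y = y ^ l)
    (P : (ZMod 2)[X]) : ev y h1 h2 (Ideal.Quotient.mk (Id M l) P) = aeval y P := rfl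

theorem ptwo (a : (ZMod 2)[X]) : a + a = 0 := CharTwo.add_self_eq_zero a

theorem lam_two (M l : ℕ) (a : Lam M l) : a + a = 0 := by
  obtain ⟨P, rfl⟩ := Ideal.Quotient.mk_surjective a
  rw [← map_add, ptwo, map_zero]

theorem mk_pow_M (M l : ℕ) : (Ideal.Quotient.mk (Id M l) X) ^ M = 1 := by
  rw [← map_pow, ← map_one (Ideal.Quotient.mk (Id M l)), Ideal.Quotient.eq]
  exact memM M l

theorem mk_l (M l : ℕ) : 1 + (Ideal.Quotient.mk (Id M l) X) = (Ideal.Quotient.mk (Id M l) X) ^ l := by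
  rw [← map_pow, ← map_one (Ideal.Quotient.mk (Id M l)), ← map_add, eq_comm, Ideal.Quotient.eq]
  have : (X ^ l - (1 + X) : (ZMod 2)[X]) = X ^ l + X + 1 := by
    have := ptwo (1 + X)
    linear_combination -this
  rw [this]
  exact meml M l

theorem lam_fin (M l : ℕ) (hM : 0 < M) : Finite (Lam M l) := by
  have hmon : (X ^ M - 1 : (ZMod 2)[X]).Monic := monic_X_pow_sub_C 1 hM.ne'
  have hfd : Finite (Polynomial.degreeLT (ZMod 2) M) :=
    Finite.of_equiv _ (Polynomial.degreeLTEquiv (ZMod 2) M).symm.toEquiv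
  refine Finite.of_surjective (fun f : Polynomial.degreeLT (ZMod 2) M =>
    (Ideal.Quotient.mk (Id M l) (f : (ZMod 2)[X]) : Lam M l)) ?_
  intro a
  obtain ⟨P, rfl⟩ := Ideal.Quotient.mk_surjective a
  refine ⟨⟨P %ₘ (X ^ M - 1), ?_⟩, ?_⟩
  · rw [Polynomial.mem_degreeLT]
    refine (degree_modByMonic_lt _ hmon).trans_le ?_
    have : (X ^ M - 1 : (ZMod 2)[X]) = X ^ M - C 1 := by simp
    rw [this, degree_X_pow_sub_C hM]
  · show Ideal.Quotient.mk (Id M l) (P %ₘ (X ^ M - 1)) = Ideal.Quotient.mk (Id M l) P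
    rw [Ideal.Quotient.eq]
    have := modByMonic_add_div P (X ^ M - 1)
    have e : P %ₘ (X ^ M - 1) - P = -(X ^ M - 1) * (P /ₘ (X ^ M - 1)) := by
      linear_combination this
    rw [e]
    exact Ideal.mul_mem_right _ _ (neg_mem (memM M l))

theorem zc (c : ZMod 2) : c = 0 ∨ c = 1 := by
  fin_cases c
  · exact Or.inl rfl
  · exact Or.inr rfl

theorem lam_frob (n M l : ℕ) (hd : M ∣ 2 ^ n - 1) (a : Lam M l) : a ^ (2 ^ n) = a := by
  obtain ⟨P, rfl⟩ := Ideal.Quotient.mk_surjective a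
  have hx : (Ideal.Quotient.mk (Id M l) X) ^ (2 ^ n) = Ideal.Quotient.mk (Id M l) X := by
    obtain ⟨k, hk⟩ := hd
    have : 2 ^ n = M * k + 1 := by
      have : 1 ≤ 2 ^ n := Nat.one_le_two_pow
      omega
    rw [this, pow_succ, pow_mul, mk_pow_M, one_pow, one_mul]
  induction P using Polynomial.induction_on' with
  | add p q hp hq =>
    rw [← map_pow, add_pow_char_pow, map_add, map_add, map_pow, map_pow]
    rw [hp, hq]
  | monomial k c =>
    rcases zc c with rfl | rfl
    · simp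
    · rw [monomial_one_right_eq_X_pow, map_pow, ← pow_mul, mul_comm, pow_mul, hx]

theorem lam_span (M l : ℕ) : AddSubgroup.closure
    (Set.range (fun i : ℕ => (Ideal.Quotient.mk (Id M l) X : Lam M l) ^ i)) = ⊤ := by
  rw [eq_top_iff]
  intro a _
  obtain ⟨P, rfl⟩ := Ideal.Quotient.mk_surjective a
  induction P using Polynomial.induction_on' with
  | add p q hp hq =>
    rw [map_add]
    exact add_mem (hp trivial) (hq trivial)
  | monomial k c =>
    rcases zc c with rfl | rfl
    · simp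
    · rw [monomial_one_right_eq_X_pow, map_pow]
      exact AddSubgroup.subset_closure ⟨k, rfl⟩

/-- evaluation commutes with Frobenius -/
theorem aeval_frob (n i : ℕ) (y : GaloisField 2 n) (P : (ZMod 2)[X]) :
    aeval (y ^ (2 ^ i)) P = (aeval y P) ^ (2 ^ i) := by
  induction P using Polynomial.induction_on' with
  | add p q hp hq =>
    rw [map_add, map_add, hp, hq, add_pow_char_pow]
  | monomial k c =>
    rcases zc c with rfl | rfl
    · simp
    · rw [monomial_one_right_eq_X_pow]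
      simp only [map_pow, aeval_X]
      rw [← pow_mul, ← pow_mul, mul_comm]

theorem pow_inj_aux (n M : ℕ) (hn : n.Prime) (hM : 1 < M) (hd : M ∣ 2 ^ n - 1)
    (y : GaloisField 2 n) (ho : orderOf y = M) (i j : ℕ) (hij : i < j) (hj : j < n)
    (h : y ^ (2 ^ i) = y ^ (2 ^ j)) : False := by
  have hy0 : y ≠ 0 := by
    rintro rfl
    have := pow_orderOf_eq_one (0 : GaloisField 2 n)
    rw [ho, zero_pow (by omega)] at this
    exact zero_ne_one this
  have h1 : y ^ (2 ^ j - 2 ^ i) = 1 := by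
    have hle : 2 ^ i ≤ 2 ^ j := Nat.pow_le_pow_right (by norm_num) hij.le
    have : y ^ (2 ^ j - 2 ^ i) * y ^ (2 ^ i) = 1 * y ^ (2 ^ i) := by
      rw [← pow_add, Nat.sub_add_cancel hle, one_mul, h]
    exact mul_right_cancel₀ (pow_ne_zero _ hy0) this
  have h2 : M ∣ 2 ^ j - 2 ^ i := ho ▸ orderOf_dvd_of_pow_eq_one h1
  have h3 : 2 ^ j - 2 ^ i = 2 ^ i * (2 ^ (j - i) - 1) := by
    rw [Nat.mul_sub, mul_one, ← pow_add]
    congr 2
    omega
  have hodd : Nat.Coprime M 2 := by
    have : Nat.Coprime (2 ^ n - 1) 2 := by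
      rw [Nat.coprime_comm, Nat.coprime_two_left]
      have : Even (2 ^ n) := (Nat.even_pow.2 ⟨even_two, hn.ne_zero⟩)
      exact Nat.Even.sub_odd Nat.one_le_two_pow this odd_one
    exact Nat.Coprime.coprime_dvd_left hd this
  rw [h3] at h2
  have h4 : M ∣ 2 ^ (j - i) - 1 := (Nat.Coprime.pow_right i hodd).dvd_of_dvd_mul_left h2
  have h5 : M ∣ Nat.gcd (2 ^ (j - i) - 1) (2 ^ n - 1) := Nat.dvd_gcd h4 hd
  rw [Nat.pow_sub_one_gcd_pow_sub_one] at h5
  have h6 : Nat.gcd (j - i) n = 1 := by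
    refine (Nat.Coprime.symm ?_)
    rw [Nat.Prime.coprime_iff_not_dvd hn]
    intro hdv
    have := Nat.le_of_dvd (by omega) hdv
    omega
  rw [h6] at h5
  have := Nat.le_of_dvd (by norm_num) h5
  omega

theorem pow_inj (n M : ℕ) (hn : n.Prime) (hM : 1 < M) (hd : M ∣ 2 ^ n - 1)
    (y : GaloisField 2 n) (ho : orderOf y = M) (i j : ℕ) (hi : i < n) (hj : j < n)
    (h : y ^ (2 ^ i) = y ^ (2 ^ j)) : i = j := by
  rcases lt_trichotomy i j with hij | hij | hij
  · exact (pow_inj_aux n M hn hM hd y ho i j hij hj h).elim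
  · exact hij
  · exact (pow_inj_aux n M hn hM hd y ho j i hij hi h.symm).elim

theorem lam_bad (n M l : ℕ) (hn : n.Prime) (hn5 : 5 ≤ n) (hM : 1 < M) (hd : M ∣ 2 ^ n - 1)
    (ho : ∀ y : GaloisField 2 n, y ^ M = 1 → 1 + y = y ^ l → orderOf y = M)
    (A B C' D : Lam M l) (h : A * C' + B * D = 1) :
    5 * Nat.card {b : Fin M // ¬ IsUnit (A + (Ideal.Quotient.mk (Id M l) X) ^ (b : ℕ) * B)} < M := by
  classical
  obtain ⟨PA, rfl⟩ := Ideal.Quotient.mk_surjective A
  obtain ⟨PB, rfl⟩ := Ideal.Quotient.mk_surjective B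
  set Bad := {b : Fin M // ¬ IsUnit (Ideal.Quotient.mk (Id M l) PA +
    (Ideal.Quotient.mk (Id M l) X) ^ (b : ℕ) * Ideal.Quotient.mk (Id M l) PB)} with hBad
  -- witness
  have hw : ∀ b : Bad, ∃ y : GaloisField 2 n, y ^ M = 1 ∧ 1 + y = y ^ l ∧
      aeval y PA + y ^ ((b : Fin M) : ℕ) * aeval y PB = 0 := by
    rintro ⟨b, hb⟩
    by_contra hcon
    push Not at hcon
    apply hb
    have := unit_crit n M l hn.ne_zero (by omega) hd (PA + X ^ (b : ℕ) * PB) (by
      intro y h1 h2
      have := hcon y h1 h2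
      simpa using this)
    simpa using this
  choose f hf1 hf2 hf3 using hw
  have hfo : ∀ b, orderOf (f b) = M := fun b => ho _ (hf1 b) (hf2 b)
  -- the set R
  let R : Finset (GaloisField 2 n) :=
    ((nthRoots M (1 : GaloisField 2 n)).toFinset).filter (fun y => 1 + y = y ^ l)
  have hRmem : ∀ y, y ∈ R ↔ y ^ M = 1 ∧ 1 + y = y ^ l := by
    intro y
    simp only [R, Finset.mem_filter, Multiset.mem_toFinset]
    rw [mem_nthRoots (by omega)]
  have hRcard : R.card + 1 ≤ M := by
    have h1R : (1 : GaloisField 2 n) ∉ R := by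
      rw [hRmem]
      rintro ⟨_, h2⟩
      rw [one_pow, gtwo] at h2
      exact zero_ne_one h2
    rw [← Finset.card_insert_of_notMem h1R]
    refine le_trans (Finset.card_le_card (t := (nthRoots M (1 : GaloisField 2 n)).toFinset) ?_) ?_
    · intro z hz
      rw [Finset.mem_insert] at hz
      rw [Multiset.mem_toFinset, mem_nthRoots (by omega)]
      rcases hz with rfl | hz
      · exact one_pow _
      · exact ((hRmem z).1 hz).1
    · exact (Multiset.toFinset_card_le _).trans (card_nthRoots _ _)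
  -- the injection
  have hinj : Function.Injective (fun p : Bad × Fin n =>
      (⟨(f p.1) ^ (2 ^ (p.2 : ℕ)), by
        rw [hRmem]
        constructor
        · rw [← pow_mul, mul_comm, pow_mul, hf1, one_pow]
        · rw [← pow_mul, mul_comm, pow_mul, ← hf2, add_pow_char_pow, one_pow]⟩ :
        {y // y ∈ R})) := by
    rintro ⟨b, i⟩ ⟨b', j⟩ hbb
    have hz : (f b) ^ (2 ^ (i : ℕ)) = (f b') ^ (2 ^ (j : ℕ)) := by
      simpa using congrArg Subtype.val hbb
    have key : ∀ (b : Bad) (i : ℕ), aeval ((f b) ^ (2 ^ i)) PA +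
        ((f b) ^ (2 ^ i)) ^ ((b : Fin M) : ℕ) * aeval ((f b) ^ (2 ^ i)) PB = 0 := by
      intro b i
      rw [aeval_frob, aeval_frob, ← pow_mul, mul_comm (2 ^ i), pow_mul, ← mul_pow,
        ← add_pow_char_pow, hf3, zero_pow (by positivity)]
    have k1 := key b i
    have k2 := key b' j
    rw [← hz] at k2
    set z := (f b) ^ (2 ^ (i : ℕ)) with hzdef
    have hzM : z ^ M = 1 := by
      rw [hzdef, ← pow_mul, mul_comm, pow_mul, hf1, one_pow]
    have hzl : 1 + z = z ^ l := by
      rw [hzdef, ← pow_mul, mul_comm, pow_mul, ← hf2, add_pow_char_pow, one_pow]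
    have hzo := ho z hzM hzl
    have hz0 : z ≠ 0 := by
      intro h0
      rw [h0, zero_pow (by omega)] at hzM
      exact zero_ne_one hzM
    have hPB : aeval z PB ≠ 0 := by
      intro hB0
      rw [hB0, mul_zero, add_zero] at k1
      have := congrArg (ev z hzM hzl) h
      rw [map_add, map_mul, map_mul, ev_mk, ev_mk, k1, hB0, zero_mul, zero_mul, add_zero,
        map_one] at this
      exact zero_ne_one this
    have k3 : z ^ ((b : Fin M) : ℕ) = z ^ ((b' : Fin M) : ℕ) := by
      refine mul_right_cancel₀ hPB ?_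
      linear_combination k1 - k2
    have hbe : b = b' := by
      have hlt : ((b : Fin M) : ℕ) = ((b' : Fin M) : ℕ) := by
        refine pow_injOn_Iio_orderOf ?_ ?_ k3
        · rw [hzo]; exact (b : Fin M).2
        · rw [hzo]; exact (b' : Fin M).2
      exact Subtype.ext (Fin.ext hlt)
    subst hbe
    have hie : i = j := Fin.ext (pow_inj n M hn hM hd (f b) (hfo b) i j i.2 j.2 hz)
    rw [hie]
  have hc := Nat.card_le_card_of_injective _ hinj
  rw [Nat.card_prod] at hc
  simp only [Nat.card_eq_fintype_card, Fintype.card_fin, Fintype.card_coe] at hc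
  have h5 : 5 * Nat.card Bad ≤ n * Nat.card Bad := Nat.mul_le_mul_right _ hn5
  have hc' : Nat.card Bad * n ≤ R.card := by
    rw [Nat.card_eq_fintype_card]
    exact hc
  have : n * Nat.card Bad ≤ R.card := by rw [mul_comm]; exact hc'
  omega

theorem hRing : StRing := by
  intro n M l hn hn5 hM hd hphi ho
  have hM0 : 0 < M := by omega
  refine ⟨⟨Ideal.Quotient.mk (Id M l) X, (Ideal.Quotient.mk (Id M l) X) ^ (M - 1), ?_, ?_⟩, rfl, ?_⟩
  · rw [← pow_succ', Nat.sub_add_cancel hM0, mk_pow_M]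
  · rw [← pow_succ, Nat.sub_add_cancel hM0, mk_pow_M]
  · refine
      { fin := lam_fin M l hM0
        two := lam_two M l
        n0 := hn.pos
        frob := lam_frob n M l hd
        M1 := hM
        xM := ?_
        xl := mk_l M l
        span := lam_span M l
        unit := ?_
        bad := ?_
        phi := hphi }
    · ext
      rw [Units.val_pow_eq_pow_val]
      exact mk_pow_M M l
    · intro c hc
      have := unit_crit n M l hn.ne_zero hM0 hd (1 + X ^ c) (by
        intro y h1 h2 h3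
        simp only [map_add, map_one, map_pow, aeval_X] at h3
        have h4 : y ^ c = 1 := by
          have := gtwo n 1
          linear_combination h3 - this
        apply hc
        rw [← ho y h1 h2]
        exact orderOf_dvd_of_pow_eq_one h4)
      simpa using this
    · intro A B C' D hABCD
      exact lam_bad n M l hn hn5 hM hd ho A B C' D hABCD

end Pool.Agent.Helper28.DZ2
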